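import Pool.Agent.Helper24.FF.Stmts

/-! Full list for MP_866009_co, part F: module CEC. -/

set_option autoImplicit false

namespace Pool.Agent.Helper24.FF

open Pool.Agent.Helper64.CT Pool.Agent.Helper64.DT Pool.Agent.Helper64.FL
open Pool.Agent.Helper64.HG (Ovl Model Circ IC HellyCircle ChordModel)

theorem st_CEC : ST_CEC := by
  intro V G H S T h hTS hadj
  obtain ⟨a, b, h⟩ := h
  exact ⟨a, b,
    { pa := fun v hv => h.pa v (hTS hv)
      pb := fun v hv => h.pb v (hTS hv)
      ne := fun v hv => h.ne v (hTS hv)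
      ds := fun u hu v hv huv => h.ds u (hTS hu) v (hTS hv) huv
      ad := fun u hu v hv huv =>
        (hadj u hu v hv huv).trans (h.ad u (hTS hu) v (hTS hv) huv) }⟩

end Pool.Agent.Helper24.FF
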