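import Pool.Agent.Helper24.FF.Stmts

/-! Full list for MP_866009_co, part F: module CMC. -/

set_option autoImplicit false

namespace Pool.Agent.Helper24.FF

open Pool.Agent.Helper64.CT Pool.Agent.Helper64.DT Pool.Agent.Helper64.FL
open Pool.Agent.Helper64.HG (Ovl Model Circ IC HellyCircle ChordModel)

theorem cmc_arith (a b c d : ℤ) (h0 : a ≠ b) (h00 : c ≠ d) (h1 : a ≠ c) (h2 : a ≠ d) (h3 : b ≠ c)
    (h4 : b ≠ d) :
    ¬ (bt a b c ↔ bt a b d) ↔
      ((min a b < min c d ∧ min c d < max a b ∧ max a b < max c d) ∨
        (min c d < min a b ∧ min a b < max c d ∧ max c d < max a b)) := by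
  unfold bt
  rcases lt_or_gt_of_ne h0 with h | h <;> rcases lt_or_gt_of_ne h00 with h' | h' <;>
    omega

theorem st_CMC : ST_CMC := by
  intro V _ G S h
  obtain ⟨a, b, h⟩ := h
  refine ⟨fun v => ((min (a v) (b v) : ℤ) : ℝ), fun v => ((max (a v) (b v) : ℤ) : ℝ), ?_⟩
  exact
    { lt := fun v => by
        have h1 := h.ne v v.2
        have h2 : min (a v) (b v) < max (a v) (b v) := min_lt_max.2 h1
        exact_mod_cast h2
      injl := fun u v huv => by
        have h1 : min (a u) (b u) = min (a v) (b v) := Int.cast_injective (α := ℝ) huv
        by_contra hne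
        have h2 := h.ds u u.2 v v.2 (fun h => hne (Subtype.ext h))
        rcases min_choice (a u) (b u) with h3 | h3 <;> rcases min_choice (a v) (b v) with h4 | h4 <;>
          rw [h3, h4] at h1 <;> omega
      injr := fun u v huv => by
        have h1 : max (a u) (b u) = max (a v) (b v) := Int.cast_injective (α := ℝ) huv
        by_contra hne
        have h2 := h.ds u u.2 v v.2 (fun h => hne (Subtype.ext h))
        rcases max_choice (a u) (b u) with h3 | h3 <;> rcases max_choice (a v) (b v) with h4 | h4 <;>
          rw [h3, h4] at h1 <;> omega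
      ne := fun u v huv => by
        have h1 : min (a u) (b u) = max (a v) (b v) := by exact_mod_cast huv
        by_cases hne : u = v
        · subst hne
          have h2 := h.ne u u.2
          have h3 : min (a u) (b u) < max (a u) (b u) := min_lt_max.2 h2
          omega
        · have h2 := h.ds u u.2 v v.2 (fun h => hne (Subtype.ext h))
          rcases min_choice (a u) (b u) with h3 | h3 <;>
            rcases max_choice (a v) (b v) with h4 | h4 <;>
            rw [h3, h4] at h1 <;> omega
      adj := fun u v => by
        unfold Ovl
        by_cases hne : u = v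
        · subst hne
          constructor
          · intro h1
            exact absurd h1 (SimpleGraph.irrefl _)
          · rintro (h1 | h1)
            · exact absurd h1.1 (lt_irrefl _)
            · exact absurd h1.1 (lt_irrefl _)
        · have hne' : (u : V) ≠ v := fun h => hne (Subtype.ext h)
          have h2 := h.ds u u.2 v v.2 hne'
          have h3 := h.ad u u.2 v v.2 hne'
          have h4 := cmc_arith (a u) (b u) (a v) (b v) (h.ne u u.2) (h.ne v v.2) h2.1 h2.2.1
            h2.2.2.1 h2.2.2.2
          have h5 : (G.induce S).Adj u v ↔ G.Adj u v := Iff.rfl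
          rw [h5, h3, h4]
          simp only [Int.cast_lt] }

end Pool.Agent.Helper24.FF
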