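import Pool.Agent.Helper24.FF.Stmts

/-! Full list for MP_866009_co, part F: module CNJ. -/

set_option autoImplicit false

namespace Pool.Agent.Helper24.FF

open Pool.Agent.Helper64.CT Pool.Agent.Helper64.DT Pool.Agent.Helper64.FL
open Pool.Agent.Helper64.HG (Ovl Model Circ IC HellyCircle ChordModel)

theorem cnj_n1 {lx rx ly ry : ℝ}
    (h : (lx < ly ∧ ly < rx ∧ rx < ry) ∨ (ly < lx ∧ lx < ry ∧ ry < rx)) :
    decide (lx < ly ∧ ly < rx) ≠ decide (ly < lx ∧ lx < ry) := by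
  rcases h with ⟨h1, h2, h3⟩ | ⟨h1, h2, h3⟩
  · have e1 : decide (lx < ly ∧ ly < rx) = true := decide_eq_true ⟨h1, h2⟩
    have e2 : decide (ly < lx ∧ lx < ry) = false :=
      decide_eq_false (fun h => absurd h.1 (not_lt.mpr h1.le))
    rw [e1, e2]; decide
  · have e1 : decide (lx < ly ∧ ly < rx) = false :=
      decide_eq_false (fun h => absurd h.1 (not_lt.mpr h1.le))
    have e2 : decide (ly < lx ∧ lx < ry) = true := decide_eq_true ⟨h1, h2⟩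
    rw [e1, e2]; decide

/-- one direction of the second clause -/
theorem cnj_n2a {lc rc lx rx ly ry : ℝ} (hc : lc < rc) (hx : lx < rx) (hy : ly < ry)
    (e1 : lc ≠ ly) (e2 : rc ≠ rx) (e3 : rc ≠ ry) (e4 : rc ≠ ly)
    (h : (lx < ly ∧ ly < rx ∧ rx < ry) ∨ (ly < lx ∧ lx < ry ∧ ry < rx))
    (n1 : ¬ ((lc < lx ∧ lx < rc ∧ rc < rx) ∨ (lx < lc ∧ lc < rx ∧ rx < rc)))
    (n2 : ¬ ((lc < ly ∧ ly < rc ∧ rc < ry) ∨ (ly < lc ∧ lc < ry ∧ ry < rc)))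
    (hb : lc < lx ∧ lx < rc) : lc < ly ∧ ly < rc := by
  obtain ⟨b1, b2⟩ := hb
  have h1 : rx < rc := by
    rcases lt_or_gt_of_ne e2 with h' | h'
    · exact absurd (Or.inl ⟨b1, b2, h'⟩) n1
    · exact h'
  rcases h with ⟨p1, p2, p3⟩ | ⟨p1, p2, p3⟩
  · exact ⟨b1.trans p1, p2.trans h1⟩
  · refine ⟨?_, p1.trans b2⟩
    rcases lt_or_gt_of_ne e1 with h' | h'
    · exact h'
    · exact absurd (Or.inr ⟨h', b1.trans p2, p3.trans h1⟩) n2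

theorem cnj_n3 {lv rv lw rw ln rn : ℝ} (hv : lv < rv) (hw : lw < rw) (hn : ln < rn)
    (e1 : lv ≠ lw) (e2 : rv ≠ rw) (e3 : lv ≠ rw) (e4 : lw ≠ rv)
    (h1 : (ln < lv ∧ lv < rn ∧ rn < rv) ∨ (lv < ln ∧ ln < rv ∧ rv < rn))
    (h2 : (ln < lw ∧ lw < rn ∧ rn < rw) ∨ (lw < ln ∧ ln < rw ∧ rw < rn))
    (h3 : ¬ ((lv < lw ∧ lw < rv ∧ rv < rw) ∨ (lw < lv ∧ lv < rw ∧ rw < rv))) :
    xor (xor (decide (lv < lw ∧ lw < rv)) (decide (lw < lv ∧ lv < rw)))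
      (xor (decide (ln < lv ∧ lv < rn)) (decide (ln < lw ∧ lw < rn))) = true := by
  have T : ∀ {p : Prop} [Decidable p], p → decide p = true := fun h => decide_eq_true h
  have F : ∀ {p : Prop} [Decidable p], ¬ p → decide p = false := fun h => decide_eq_false h
  rcases lt_or_gt_of_ne e1 with a1 | a1
  · rcases lt_or_gt_of_ne e4 with a2 | a2
    · -- `w` inside `v`
      have a3 : rw < rv := by
        rcases lt_or_gt_of_ne e2 with a | a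
        · exact absurd (Or.inl ⟨a1, a2, a⟩) h3
        · exact a
      rw [T (p := lv < lw ∧ lw < rv) ⟨a1, a2⟩,
        F (p := lw < lv ∧ lv < rw) (fun h => absurd h.1 (not_lt.mpr a1.le))]
      rcases h1 with ⟨p1, p2, p3⟩ | ⟨p1, p2, p3⟩
      · rcases h2 with ⟨q1, q2, q3⟩ | ⟨q1, q2, q3⟩
        · rw [T (p := ln < lv ∧ lv < rn) ⟨p1, p2⟩, T (p := ln < lw ∧ lw < rn) ⟨q1, q2⟩]; rfl
        · exact absurd p1 (not_lt.mpr (a1.trans q1).le)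
      · rcases h2 with ⟨q1, q2, q3⟩ | ⟨q1, q2, q3⟩
        · exact absurd p3 (not_lt.mpr (q3.trans a3).le)
        · rw [F (p := ln < lv ∧ lv < rn) (fun h => absurd h.1 (not_lt.mpr p1.le)),
            F (p := ln < lw ∧ lw < rn) (fun h => absurd h.1 (not_lt.mpr q1.le))]; rfl
    · -- `v` left of `w`
      rw [F (p := lv < lw ∧ lw < rv) (fun h => absurd h.2 (not_lt.mpr a2.le)),
        F (p := lw < lv ∧ lv < rw) (fun h => absurd h.1 (not_lt.mpr a1.le))]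
      rcases h1 with ⟨p1, p2, p3⟩ | ⟨p1, p2, p3⟩
      · rcases h2 with ⟨q1, q2, q3⟩ | ⟨q1, q2, q3⟩
        · exact absurd q2 (not_lt.mpr (p3.trans a2).le)
        · exact absurd p1 (not_lt.mpr (a1.trans q1).le)
      · rcases h2 with ⟨q1, q2, q3⟩ | ⟨q1, q2, q3⟩
        · rw [F (p := ln < lv ∧ lv < rn) (fun h => absurd h.1 (not_lt.mpr p1.le)),
            T (p := ln < lw ∧ lw < rn) ⟨q1, q2⟩]; rfl
        · exact absurd p2 (not_lt.mpr (a2.trans q1).le)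
  · rcases lt_or_gt_of_ne e3 with a2 | a2
    · -- `v` inside `w`
      have a3 : rv < rw := by
        rcases lt_or_gt_of_ne e2 with a | a
        · exact a
        · exact absurd (Or.inr ⟨a1, a2, a⟩) h3
      rw [F (p := lv < lw ∧ lw < rv) (fun h => absurd h.1 (not_lt.mpr a1.le)),
        T (p := lw < lv ∧ lv < rw) ⟨a1, a2⟩]
      rcases h1 with ⟨p1, p2, p3⟩ | ⟨p1, p2, p3⟩
      · rcases h2 with ⟨q1, q2, q3⟩ | ⟨q1, q2, q3⟩
        · rw [T (p := ln < lv ∧ lv < rn) ⟨p1, p2⟩, T (p := ln < lw ∧ lw < rn) ⟨q1, q2⟩]; rfl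
        · exact absurd q3 (not_lt.mpr (p3.trans a3).le)
      · rcases h2 with ⟨q1, q2, q3⟩ | ⟨q1, q2, q3⟩
        · exact absurd q1 (not_lt.mpr (a1.trans p1).le)
        · rw [F (p := ln < lv ∧ lv < rn) (fun h => absurd h.1 (not_lt.mpr p1.le)),
            F (p := ln < lw ∧ lw < rn) (fun h => absurd h.1 (not_lt.mpr q1.le))]; rfl
    · -- `w` left of `v`
      rw [F (p := lv < lw ∧ lw < rv) (fun h => absurd h.1 (not_lt.mpr a1.le)),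
        F (p := lw < lv ∧ lv < rw) (fun h => absurd h.2 (not_lt.mpr a2.le))]
      rcases h2 with ⟨q1, q2, q3⟩ | ⟨q1, q2, q3⟩
      · rcases h1 with ⟨p1, p2, p3⟩ | ⟨p1, p2, p3⟩
        · exact absurd p2 (not_lt.mpr (q3.trans a2).le)
        · exact absurd q1 (not_lt.mpr (a1.trans p1).le)
      · rcases h1 with ⟨p1, p2, p3⟩ | ⟨p1, p2, p3⟩
        · rw [T (p := ln < lv ∧ lv < rn) ⟨p1, p2⟩,
            F (p := ln < lw ∧ lw < rn) (fun h => absurd h.1 (not_lt.mpr q1.le))]; rfl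
        · exact absurd q2 (not_lt.mpr (a2.trans p1).le)

theorem st_CNJ : ST_CNJ := by
  classical
  intro V G S hC
  obtain ⟨l, r, hM⟩ := hC
  let b : V → V → Bool := fun y x =>
    if hy : y ∈ S then
      if hx : x ∈ S then decide (l ⟨y, hy⟩ < l ⟨x, hx⟩ ∧ l ⟨x, hx⟩ < r ⟨y, hy⟩) else false
    else false
  have hb : ∀ (y x : V) (hy : y ∈ S) (hx : x ∈ S),
      b y x = decide (l ⟨y, hy⟩ < l ⟨x, hx⟩ ∧ l ⟨x, hx⟩ < r ⟨y, hy⟩) := by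
    intro y x hy hx
    simp only [b, dif_pos hy, dif_pos hx]
  have hadj : ∀ (x y : V) (hx : x ∈ S) (hy : y ∈ S), G.Adj x y ↔
      ((l ⟨x, hx⟩ < l ⟨y, hy⟩ ∧ l ⟨y, hy⟩ < r ⟨x, hx⟩ ∧ r ⟨x, hx⟩ < r ⟨y, hy⟩) ∨
        (l ⟨y, hy⟩ < l ⟨x, hx⟩ ∧ l ⟨x, hx⟩ < r ⟨y, hy⟩ ∧ r ⟨y, hy⟩ < r ⟨x, hx⟩)) := by
    intro x y hx hy
    have h1 := hM.adj ⟨x, hx⟩ ⟨y, hy⟩
    exact h1
  have hnl : ∀ (x y : V) (hx : x ∈ S) (hy : y ∈ S), x ≠ y → l ⟨x, hx⟩ ≠ l ⟨y, hy⟩ := by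
    intro x y hx hy hne he
    exact hne (congrArg Subtype.val (hM.injl he))
  have hnr : ∀ (x y : V) (hx : x ∈ S) (hy : y ∈ S), x ≠ y → r ⟨x, hx⟩ ≠ r ⟨y, hy⟩ := by
    intro x y hx hy hne he
    exact hne (congrArg Subtype.val (hM.injr he))
  refine ⟨b, ?_, ?_, ?_⟩
  · intro x hx y hy h
    rw [hb x y hx hy, hb y x hy hx]
    exact cnj_n1 ((hadj x y hx hy).mp h)
  · intro c hc x hx y hy hxF hyF h
    rw [hb c x hc hx, hb c y hc hy]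
    have h1 := (hadj x y hx hy).mp h
    have h2 := fun h' => hxF.2 ((hadj c x hc hx).mpr h')
    have h3 := fun h' => hyF.2 ((hadj c y hc hy).mpr h')
    have h4 : (l ⟨y, hy⟩ < l ⟨x, hx⟩ ∧ l ⟨x, hx⟩ < r ⟨y, hy⟩ ∧ r ⟨y, hy⟩ < r ⟨x, hx⟩) ∨
        (l ⟨x, hx⟩ < l ⟨y, hy⟩ ∧ l ⟨y, hy⟩ < r ⟨x, hx⟩ ∧ r ⟨x, hx⟩ < r ⟨y, hy⟩) := h1.symm
    rw [decide_eq_decide]
    constructor
    · exact cnj_n2a (hM.lt _) (hM.lt _) (hM.lt _) (hnl c y hc hy (Ne.symm hyF.1))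
        (hnr c x hc hx (Ne.symm hxF.1)) (hnr c y hc hy (Ne.symm hyF.1)) (hM.ne _ _).symm h1 h2 h3
    · exact cnj_n2a (hM.lt _) (hM.lt _) (hM.lt _) (hnl c x hc hx (Ne.symm hxF.1))
        (hnr c y hc hy (Ne.symm hyF.1)) (hnr c x hc hx (Ne.symm hxF.1)) (hM.ne _ _).symm h4 h3 h2
  · intro n hn v hv w hw hnv hnw hvw hnvw
    rw [hb v w hv hw, hb w v hw hv, hb n v hn hv, hb n w hn hw]
    exact cnj_n3 (hM.lt _) (hM.lt _) (hM.lt _) (hnl v w hv hw hvw) (hnr v w hv hw hvw)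
      (hM.ne _ _) (hM.ne _ _) ((hadj n v hn hv).mp hnv) ((hadj n w hn hw).mp hnw)
      (fun h' => hnvw ((hadj v w hv hw).mpr h'))

end Pool.Agent.Helper24.FF
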