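import Pool.Agent.Helper24.FF.Stmts

/-! Full list for MP_866009_co, part F: module H1. -/

set_option autoImplicit false

namespace Pool.Agent.Helper24.FF

open Pool.Agent.Helper64.CT Pool.Agent.Helper64.DT Pool.Agent.Helper64.FL
open Pool.Agent.Helper64.HG (Ovl Model Circ IC HellyCircle ChordModel)

/-- a model with two chords -/
theorem h1_two {V : Type} (G : SimpleGraph V) (h v : V) (hvh : v ≠ h) (p q r s : ℤ)
    (hp : p % 2 = 0) (hq : q % 2 = 0) (hr : r % 2 = 0) (hs : s % 2 = 0)
    (hd : p ≠ q ∧ r ≠ s ∧ p ≠ r ∧ p ≠ s ∧ q ≠ r ∧ q ≠ s)
    (h1 : G.Adj v h ↔ ¬ (bt p q r ↔ bt p q s)) (h2 : G.Adj h v ↔ ¬ (bt r s p ↔ bt r s q)) :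
    ∃ a b : V → ℤ, CM G {v, h} a b ∧ a v = p ∧ b v = q ∧ a h = r ∧ b h = s := by
  classical
  have hhv : h ≠ v := hvh.symm
  refine ⟨fun y => if y = v then p else r, fun y => if y = v then q else s, ?_, by simp, by simp,
    by simp [hhv], by simp [hhv]⟩
  exact
    { pa := by
        rintro y (rfl | hy)
        · simpa using hp
        · have hy : y = h := hy
          subst hy
          simpa [hhv] using hr
      pb := by
        rintro y (rfl | hy)
        · simpa using hq
        · have hy : y = h := hy
          subst hy
          simpa [hhv] using hs
      ne := by
        rintro y (rfl | hy)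
        · simpa using hd.1
        · have hy : y = h := hy
          subst hy
          simpa [hhv] using hd.2.1
      ds := by
        intro y hy z hz hyz
        have hy : y = v ∨ y = h := hy
        have hz : z = v ∨ z = h := hz
        rcases hy with rfl | rfl <;> rcases hz with rfl | rfl
        · exact absurd rfl hyz
        · simp only [if_true, hhv, if_false]
          exact ⟨hd.2.2.1, hd.2.2.2.1, hd.2.2.2.2.1, hd.2.2.2.2.2⟩
        · simp only [if_true, hhv, if_false]
          exact ⟨hd.2.2.1.symm, hd.2.2.2.2.1.symm, hd.2.2.2.1.symm, hd.2.2.2.2.2.symm⟩
        · exact absurd rfl hyz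
      ad := by
        intro y hy z hz hyz
        have hy : y = v ∨ y = h := hy
        have hz : z = v ∨ z = h := hz
        rcases hy with rfl | rfl <;> rcases hz with rfl | rfl
        · exact absurd rfl hyz
        · simp only [if_true, hhv, if_false]
          exact h1
        · simp only [if_true, hhv, if_false]
          exact h2
        · exact absurd rfl hyz }

theorem st_H1 (hI : ST_INS) (hM : ST_MIR) : ST_H1 := by
  refine ⟨?_, ?_⟩
  · intro V G h v hvh
    by_cases hadj : G.Adj v h
    · obtain ⟨a, b, hc, e1, e2, e3, e4⟩ := h1_two G h v hvh 0 4 2 6 (by norm_num) (by norm_num)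
        (by norm_num) (by norm_num) (by norm_num)
        (by
          refine iff_of_true hadj ?_
          unfold bt
          norm_num)
        (by
          refine iff_of_true hadj.symm ?_
          unfold bt
          norm_num)
      refine ⟨Or.inr rfl, Or.inl rfl, hvh, a, b, -1, 1, 3, hc, by unfold Od; norm_num,
        by unfold Od; norm_num, by unfold Od; norm_num, by norm_num, by norm_num, ?_, ?_⟩
      · rintro y (rfl | hy)
        · rw [e1, e2]
          unfold bt
          norm_num
        · have hy : y = h := hy
          subst hy
          rw [e3, e4]
          unfold bt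
          norm_num
          exact hvh.symm
      · rintro y (rfl | hy)
        · rw [e1, e2]
          unfold bt
          norm_num
          exact hvh
        · have hy : y = h := hy
          subst hy
          rw [e3, e4]
          unfold bt
          norm_num
    · obtain ⟨a, b, hc, e1, e2, e3, e4⟩ := h1_two G h v hvh (-2) 0 2 4 (by norm_num) (by norm_num)
        (by norm_num) (by norm_num) (by norm_num)
        (by
          refine iff_of_false hadj ?_
          unfold bt
          norm_num)
        (by
          refine iff_of_false (fun h => hadj h.symm) ?_
          unfold bt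
          norm_num)
      refine ⟨Or.inr rfl, Or.inl rfl, hvh, a, b, -1, 1, 3, hc, by unfold Od; norm_num,
        by unfold Od; norm_num, by unfold Od; norm_num, by norm_num, by norm_num, ?_, ?_⟩
      · rintro y (rfl | hy)
        · rw [e1, e2]
          unfold bt
          norm_num
        · have hy : y = h := hy
          subst hy
          rw [e3, e4]
          unfold bt
          norm_num
          exact hvh.symm
      · rintro y (rfl | hy)
        · rw [e1, e2]
          unfold bt
          norm_num
          exact hvh
        · have hy : y = h := hy
          subst hy
          rw [e3, e4]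
          unfold bt
          norm_num
  · intro V G S h v x hF hx hxv hno
    obtain ⟨hS, vS, hvh, a, b, g0, g1, g2, hc, o0, o1, o2, l1, l2, s1, s2⟩ := hF
    have hxh : x ≠ h := fun e => hx (e ▸ hS)
    have hxv' : x ≠ v := fun e => hx (e ▸ vS)
    by_cases hadj : G.Adj x h
    · have hs : SE S a b g0 g2 (fun y => G.Adj x y) := by
        intro y hy
        have t1 := s1 y hy
        have t2 := s2 y hy
        have key : (y = v ∨ y = h) ↔ G.Adj x y := by
          constructor
          · rintro (rfl | rfl)
            · exact hxv
            · exact hadj
          · intro h3
            by_contra hcon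
            push Not at hcon
            exact hno y hy hcon.2 hcon.1 h3
        refine Iff.trans ?_ key
        by_cases e1 : y = v
        · have e2 : y ≠ h := fun e => hvh (e1 ▸ e)
          have t1' := t1.2 e1
          have t2' : ¬ ¬ (bt (a y) (b y) g1 ↔ bt (a y) (b y) g2) := fun h => e2 (t2.1 h)
          constructor
          · intro _
            exact Or.inl e1
          · intro _
            tauto
        · by_cases e2 : y = h
          · have t2' := t2.2 e2
            have t1' : ¬ ¬ (bt (a y) (b y) g0 ↔ bt (a y) (b y) g1) := fun h => e1 (t1.1 h)
            constructor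
            · intro _
              exact Or.inr e2
            · intro _
              tauto
          · have t1' : ¬ ¬ (bt (a y) (b y) g0 ↔ bt (a y) (b y) g1) := fun h => e1 (t1.1 h)
            have t2' : ¬ ¬ (bt (a y) (b y) g1 ↔ bt (a y) (b y) g2) := fun h => e2 (t2.1 h)
            constructor
            · intro h3
              exact absurd (by tauto) h3
            · rintro (h3 | h3)
              · exact absurd h3 e1
              · exact absurd h3 e2
      obtain ⟨c1, c2, c3⟩ := hI V G S a b x g0 g2 hc hx o0 o2 (by omega) hs
      obtain ⟨d1, d2⟩ := hM V G (insert x S) _ _ c1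
      unfold Od at o0 o1 o2
      refine ⟨Set.mem_insert_of_mem _ hS, Set.mem_insert _ _, hxh, _, _, -(2 * g2 + 1),
        -(2 * g2 - 1), -(2 * g1 + 1), d1, by unfold Od; omega, by unfold Od; omega,
        by unfold Od; omega, by omega, by omega, ?_, ?_⟩
      · rintro y (rfl | hy)
        · rw [d2, d2, c3, c3]
          unfold bt
          constructor
          · intro _
            rfl
          · intro _
            omega
        · rw [d2, d2, c2 y hy g2 1 o2 (Or.inl rfl), show 2 * g2 - 1 = 2 * g2 + -1 by ring,
            c2 y hy g2 (-1) o2 (Or.inr rfl)]
          constructor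
          · intro h3
            exact absurd Iff.rfl h3
          · intro h3
            exact absurd (h3 ▸ hy) hx
      · rintro y (rfl | hy)
        · rw [d2, d2, c3, c3]
          unfold bt
          constructor
          · intro h3
            exfalso
            omega
          · intro h3
            exact absurd h3 hxh
        · rw [d2, d2, c2 y hy g1 1 o1 (Or.inl rfl), show 2 * g2 - 1 = 2 * g2 + -1 by ring,
            c2 y hy g2 (-1) o2 (Or.inr rfl)]
          rw [← s2 y hy]
          tauto
    · have hs : SE S a b g0 g1 (fun y => G.Adj x y) := by
        intro y hy
        rw [s1 y hy]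
        constructor
        · rintro rfl
          exact hxv
        · intro h3
          by_contra hcon
          by_cases e : y = h
          · subst e
            exact hadj h3
          · exact hno y hy e hcon h3
      obtain ⟨c1, c2, c3⟩ := hI V G S a b x g0 g1 hc hx o0 o1 (by omega) hs
      unfold Od at o0 o1 o2
      refine ⟨Set.mem_insert_of_mem _ hS, Set.mem_insert _ _, hxh, _, _, 2 * g1 + -1, 2 * g1 + 1,
        2 * g2 + -1, c1, by unfold Od; omega, by unfold Od; omega, by unfold Od; omega, by omega,
        by omega, ?_, ?_⟩
      · rintro y (rfl | hy)
        · rw [c3, c3]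
          unfold bt
          constructor
          · intro _
            rfl
          · intro _
            omega
        · rw [c2 y hy g1 1 o1 (Or.inl rfl), c2 y hy g1 (-1) o1 (Or.inr rfl)]
          constructor
          · intro h3
            exact absurd Iff.rfl h3
          · intro h3
            exact absurd (h3 ▸ hy) hx
      · rintro y (rfl | hy)
        · rw [c3, c3]
          unfold bt
          constructor
          · intro h3
            exfalso
            omega
          · intro h3
            exact absurd h3 hxh
        · rw [c2 y hy g1 1 o1 (Or.inl rfl), c2 y hy g2 (-1) o2 (Or.inr rfl)]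
          exact s2 y hy

end Pool.Agent.Helper24.FF
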