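import Pool.Agent.Helper24.FF.Stmts

/-! Full list for MP_866009_co, part F: module SCL. -/

set_option autoImplicit false

namespace Pool.Agent.Helper24.FF

open Pool.Agent.Helper64.CT Pool.Agent.Helper64.DT Pool.Agent.Helper64.FL
open Pool.Agent.Helper64.HG (Ovl Model Circ IC HellyCircle ChordModel)

theorem scl_bt (p q r : ℤ) : bt (2 * p) (2 * q) (2 * r) ↔ bt p q r := by
  unfold bt
  omega

theorem st_SCL : ST_SCL := by
  intro V G S a b h
  refine ⟨?_, ?_⟩
  · exact
      { pa := fun v _ => by omega
        pb := fun v _ => by omega
        ne := fun v hv => by
          have := h.ne v hv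
          omega
        ds := fun u hu v hv huv => by
          have := h.ds u hu v hv huv
          omega
        ad := fun u hu v hv huv => by
          rw [scl_bt, scl_bt]
          exact h.ad u hu v hv huv }
  · intro v hv g e hg he
    have h1 := h.pa v hv
    have h2 := h.pb v hv
    unfold Od at hg
    unfold bt
    omega

end Pool.Agent.Helper24.FF
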