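import Pool.Agent.Helper24.FF.Stmts
import Pool.Agent.Helper90.FL.TBS
import Pool.Agent.Helper71.FL.PXI

/-! Full list for MP_866009_co, part F: module TBN. -/

set_option autoImplicit false

namespace Pool.Agent.Helper24.FF

open Pool.Agent.Helper64.CT Pool.Agent.Helper64.DT Pool.Agent.Helper64.FL
open Pool.Agent.Helper64.HG (Ovl Model Circ IC HellyCircle ChordModel)

theorem tbn_memp_symm (i j : ℕ) (l : List (ℕ × ℕ)) : memp i j l = memp j i l := by
  induction l with
  | nil => rfl
  | cons p l ih =>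
    obtain ⟨a, b⟩ := p
    simp only [memp, ih]
    rw [Bool.or_comm (Nat.beq a i && Nat.beq b j)]

theorem tbn_adT_symm (T : Ent) (i j : ℕ) : adT T i j = adT T j i := by
  unfold adT
  rw [tbn_memp_symm i j, tbn_memp_symm i j]

theorem tbn_bp (n : ℕ) (hn : n ≤ 32) (l : List (ℕ × ℕ)) (i j : ℕ) (hi : i < 32) (hj : j < 32) :
    okp2 n l = true → tb (bp l) (px i j) = true → i < n ∧ j < n ∧ memp i j l = true := by
  induction l with
  | nil =>
    intro _ h
    rw [bp, st_TBS.2.2.2.2.2.1] at h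
    exact absurd h (by simp)
  | cons p l ih =>
    obtain ⟨a, b⟩ := p
    intro hok h
    simp only [okp2, Bool.and_eq_true, Nat.blt_eq, Bool.not_eq_true'] at hok
    obtain ⟨⟨⟨ha, hb⟩, _⟩, hl⟩ := hok
    rw [bp, st_TBS.1] at h
    simp only [Bool.or_eq_true, decide_eq_true_eq] at h
    rcases h with h | h
    · obtain ⟨h1, h2, h3⟩ := ih hl h
      refine ⟨h1, h2, ?_⟩
      simp only [memp, h3, Bool.or_true]
    · rcases st_PXI.2.1 a b i j (by omega) (by omega) hi hj h with ⟨rfl, rfl⟩ | ⟨rfl, rfl⟩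
      · refine ⟨ha, hb, ?_⟩
        simp [memp]
      · refine ⟨hb, ha, ?_⟩
        simp [memp]

theorem tbn_bnj (T : Ent) (j q m : ℕ) :
    tb (bnj T j m) q = true → ∃ i, i < m ∧ adT T i j = false ∧ px i j = q := by
  induction m with
  | zero =>
    intro h
    rw [bnj, st_TBS.2.2.2.2.2.1] at h
    exact absurd h (by simp)
  | succ m ih =>
    intro h
    rw [bnj] at h
    by_cases hc : adT T m j = true
    · rw [hc, cond_true] at h
      obtain ⟨i, h1, h2⟩ := ih h
      exact ⟨i, by omega, h2⟩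
    · have hc' : adT T m j = false := by simpa using hc
      rw [hc', cond_false, st_TBS.1] at h
      simp only [Bool.or_eq_true, decide_eq_true_eq] at h
      rcases h with h | h
      · obtain ⟨i, h1, h2⟩ := ih h
        exact ⟨i, by omega, h2⟩
      · exact ⟨m, by omega, hc', h⟩

theorem tbn_bn (T : Ent) (q m : ℕ) :
    tb (bn T m) q = true → ∃ i j, i < j ∧ j < m ∧ adT T i j = false ∧ px i j = q := by
  induction m with
  | zero =>
    intro h
    rw [bn, st_TBS.2.2.2.2.2.1] at h
    exact absurd h (by simp)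
  | succ m ih =>
    intro h
    rw [bn, st_TBS.2.2.1] at h
    simp only [Bool.or_eq_true] at h
    rcases h with h | h
    · obtain ⟨i, h1, h2, h3⟩ := tbn_bnj T m q m h
      exact ⟨i, m, h1, by omega, h2, h3⟩
    · obtain ⟨i, j, h1, h2, h3⟩ := ih h
      exact ⟨i, j, h1, by omega, h3⟩

theorem st_TBN : ST_TBN := by
  intro T hn hok i j hi hj
  refine ⟨?_, ?_⟩
  · intro h
    obtain ⟨h1, h2, h3⟩ := tbn_bp T.n hn T.rg i j hi hj hok h
    exact ⟨h1, h2, fun _ => h3⟩
  · intro h
    obtain ⟨i', j', h1, h2, h3, h4⟩ := tbn_bn T (px i j) T.n h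
    rcases st_PXI.2.1 i' j' i j (by omega) (by omega) hi hj h4 with ⟨rfl, rfl⟩ | ⟨rfl, rfl⟩
    · exact ⟨by omega, by omega, fun _ => h3⟩
    · exact ⟨by omega, by omega, fun _ => by rw [tbn_adT_symm]; exact h3⟩

end Pool.Agent.Helper24.FF
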